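import Pool.Agent.Lib.MP_b9add9_lc.Uni.Defs

/-!
# Turing reductions between disjoint NP-pairs relative to an oracle
-/

namespace ESY

/-- Relative to `O`, the pair `(C, D)` is polynomial-time Turing reducible to the pair `(A, B)`:
for every separator `S` of `(A, B)` some set that contains `C` and is disjoint from `D` is in
`P` relative to `O ⊕ S`. -/
def TReduces (O : Oracle) (C D A B : Set (List Bool)) : Prop :=
  ∀ S : Oracle, Separator A B S → ∃ E : Set (List Bool), C ⊆ E ∧ Disjoint D E ∧ InP (join O S) E

/-- The pair `(A, B)` is Turing-complete relative to `O`. -/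
def TComplete (O : Oracle) (A B : Set (List Bool)) : Prop :=
  NPPair O A B ∧ ∀ C D, NPPair O C D → TReduces O C D A B

/-- Relative to `O ⊕ S`, no set `E` that contains `C` and is disjoint from `D` can be decided
deterministically within the time bounds `T`, and for no such `E` both `E` and its complement can
be accepted nondeterministically within these bounds. -/
def Inseparable (T : ℕ → ℕ → ℕ) (O S : Oracle) (C D : Set (List Bool)) : Prop :=
  ∀ E : Set (List Bool), C ⊆ E → Disjoint D E → ¬ InTime T (join O S) E ∧
    ¬ (InNTime T (join O S) E ∧ InNTime T (join O S) Eᶜ)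

end ESY
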