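import Pool.Agent.Lib.MP_80aaf5_lc.Few2.Core
import Pool.Agent.Lib.MP_80aaf5_lc.Few2.Defs
import Pool.Agent.Lib.MP_b9add9_lc.Uni.Push

/-!
# Generic parameters
-/

namespace ESY.Few2

open ESY ESY.Few Set Topology Filter
open ESY.Uni (inp inp_length inp_inj baire_closure inNP_inp)

/-- the pair is not disjoint -/
def Meet (a b : ℕ) : Set Par := {y | ∃ q, Tr (OO y) a q ∧ Tr (OO y) b q}

theorem isOpen_meet (a b : ℕ) : IsOpen (Meet a b) := by
  have h1 : Meet a b = ⋃ q, ({y | Tr (OO y) a q} ∩ {y | Tr (OO y) b q}) := by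
    ext y
    simp only [Meet, mem_ofPred_eq, mem_iUnion, mem_inter_iff]
  rw [h1]
  exact isOpen_iUnion fun q => ((clopen_trO _ _).inter (clopen_trO _ _)).2

/-- `M` accepts `x` deterministically -/
def Acc (a b : ℕ) (M : Machine) (T : ℕ → ℕ) (y : Par) (x : List Bool) : Prop :=
  AcceptsIn (join (OO y) (sep y a b)) M x [] (T x.length)

/-- `M` accepts `x` nondeterministically -/
def NAcc (a b : ℕ) (M : Machine) (T : ℕ → ℕ) (y : Par) (x : List Bool) : Prop :=
  ∃ w : List Bool, w.length ≤ T x.length ∧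
    AcceptsIn (join (OO y) (sep y a b)) M x w (T x.length)

theorem clopen_acc (a b : ℕ) (M : Machine) (T : ℕ → ℕ) (x : List Bool) :
    IsClopen {y | Acc a b M T y x} := clopen_accepts fun s _ => clopen_join _ _ s

theorem clopen_nacc (a b : ℕ) (M : Machine) (T : ℕ → ℕ) (x : List Bool) :
    IsClopen {y | NAcc a b M T y x} := by
  have h3 : {y | NAcc a b M T y x} = ⋃ w ∈ {w : List Bool | w.length ≤ T x.length},
      {y | AcceptsIn (join (OO y) (sep y a b)) M x w (T x.length)} := by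
    ext y
    simp only [NAcc, mem_ofPred_eq, mem_iUnion, exists_prop]
  rw [h3]
  exact (List.finite_length_le Bool _).isClopen_biUnion fun w _ =>
    clopen_accepts fun s _ => clopen_join _ _ s

/-- `M` separates the pair on `x` -/
def WorksD (a b : ℕ) (M : Machine) (T : ℕ → ℕ) (y : Par) (x : List Bool) : Prop :=
  (inp a b false x ∈ Test (OO y) → Acc a b M T y x) ∧
  (inp a b true x ∈ Test (OO y) → ¬ Acc a b M T y x)

/-- `M` accepts the complement of the first language on `x` -/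
def WorksN (a b : ℕ) (M : Machine) (T : ℕ → ℕ) (y : Par) (x : List Bool) : Prop :=
  inp a b false x ∉ Test (OO y) ↔ NAcc a b M T y x

/-- `M` and `M'` separate the pair on `x` -/
def Works2 (a b : ℕ) (M M' : Machine) (T T' : ℕ → ℕ) (y : Par) (x : List Bool) : Prop :=
  (NAcc a b M T y x ∨ NAcc a b M' T' y x) ∧
  (inp a b false x ∈ Test (OO y) → ¬ NAcc a b M' T' y x) ∧
  (inp a b true x ∈ Test (OO y) → ¬ NAcc a b M T y x)

theorem clopen_imp {Y : Type*} [TopologicalSpace Y] {P Q : Y → Prop} (hP : IsClopen {y | P y})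
    (hQ : IsClopen {y | Q y}) : IsClopen {y | P y → Q y} := by
  have h : {y | P y → Q y} = {y | P y}ᶜ ∪ {y | Q y} := by
    ext y
    simp only [mem_ofPred_eq, mem_union, mem_compl_iff, imp_iff_not_or]
  rw [h]
  exact hP.compl.union hQ

theorem clopen_not {Y : Type*} [TopologicalSpace Y] {P : Y → Prop} (hP : IsClopen {y | P y}) :
    IsClopen {y | ¬ P y} := hP.compl

theorem clopen_and {Y : Type*} [TopologicalSpace Y] {P Q : Y → Prop} (hP : IsClopen {y | P y})
    (hQ : IsClopen {y | Q y}) : IsClopen {y | P y ∧ Q y} := hP.inter hQ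

theorem clopen_or {Y : Type*} [TopologicalSpace Y] {P Q : Y → Prop} (hP : IsClopen {y | P y})
    (hQ : IsClopen {y | Q y}) : IsClopen {y | P y ∨ Q y} := hP.union hQ

theorem clopen_worksD (a b : ℕ) (M : Machine) (T : ℕ → ℕ) (x : List Bool) :
    IsClopen {y | WorksD a b M T y x} :=
  clopen_and (clopen_imp (clopen_test _) (clopen_acc _ _ _ _ _))
    (clopen_imp (clopen_test _) (clopen_not (clopen_acc _ _ _ _ _)))

theorem clopen_worksN (a b : ℕ) (M : Machine) (T : ℕ → ℕ) (x : List Bool) :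
    IsClopen {y | WorksN a b M T y x} := by
  have h : {y | WorksN a b M T y x} = {y | (inp a b false x ∉ Test (OO y) → NAcc a b M T y x) ∧
      (NAcc a b M T y x → inp a b false x ∉ Test (OO y))} := by
    ext y
    simp only [WorksN, mem_ofPred_eq, iff_def]
  rw [h]
  exact clopen_and (clopen_imp (clopen_not (clopen_test _)) (clopen_nacc _ _ _ _ _))
    (clopen_imp (clopen_nacc _ _ _ _ _) (clopen_not (clopen_test _)))

theorem clopen_works2 (a b : ℕ) (M M' : Machine) (T T' : ℕ → ℕ) (x : List Bool) :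
    IsClopen {y | Works2 a b M M' T T' y x} :=
  clopen_and (clopen_or (clopen_nacc _ _ _ _ _) (clopen_nacc _ _ _ _ _))
    (clopen_and (clopen_imp (clopen_test _) (clopen_not (clopen_nacc _ _ _ _ _)))
      (clopen_imp (clopen_test _) (clopen_not (clopen_nacc _ _ _ _ _))))

/-- the requirement with the predicate `W` -/
def Req (a b : ℕ) (W : Par → List Bool → Prop) : Set Par := Meet a b ∪ ⋃ x, {y | W y x}ᶜ

theorem isOpen_req {a b : ℕ} {W : Par → List Bool → Prop} (h : ∀ x, IsClopen {y | W y x}) :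
    IsOpen (Req a b W) := (isOpen_meet a b).union (isOpen_iUnion fun x => (h x).compl.2)

/-- the data of the density argument exist -/
theorem exists_setup {i₁ i₂ : ℕ} {T : ℕ → ℕ} (hT : Sub T) {U : Set Par} (hU : IsOpen U)
    {y₀ : Par} (hy₀ : y₀ ∈ U) (ht : Tame y₀)
    (hdis : ∀ y ∈ U, Tame y → ∀ q, ¬ (Tr (OO y) i₁ q ∧ Tr (OO y) i₂ q)) :
    ∃ s : Setup i₁ i₂, s.U = U ∧ s.m = s.n₁ + 2 * T s.n₁ ∧
      T s.n₁ * (1 + s.m ^ 2 + (4 * s.B + 2)) < 2 ^ s.n₁ := by
  obtain ⟨N₀, hN₀⟩ := exists_size hU hy₀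
  obtain ⟨N, hN0, hfin, hviol⟩ := tame_bound ht N₀
  let m : ℕ → ℕ := fun n => n + 2 * T n
  let ℓ : ℕ → ℕ := fun n => (poly (nu i₁).2 (m n) + i₁ + m n + 2) +
    (poly (nu i₂).2 (m n) + i₂ + m n + 2)
  have hm : Sub m := sub_add sub_id (sub_mul (sub_const 2) hT)
  have hℓ : Sub ℓ := by
    refine sub_add (sub_add (sub_add (sub_add ?_ (sub_const _)) hm) (sub_const _))
      (sub_add (sub_add (sub_add ?_ (sub_const _)) hm) (sub_const _))
    · exact sub_poly hm _
    · exact sub_poly hm _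
  have hb : Sub fun n => ℓ n * (1 + (2 * ℓ n) ^ 2) :=
    sub_mul hℓ (sub_add (sub_const 1) (sub_pow (sub_mul (sub_const 2) hℓ) 2))
  have h1 : Sub fun n => ℓ n * (1 + (2 * ℓ n) ^ 2) + ℓ n * (1 + (2 * ℓ n) ^ 2) + 1 :=
    sub_add (sub_add hb hb) (sub_const 1)
  have h2 : Sub fun n => T n * (1 + m n ^ 2 + (4 * (ℓ n * (1 + (2 * ℓ n) ^ 2)) + 2)) + 1 :=
    sub_add (sub_mul hT (sub_add (sub_add (sub_const 1) (sub_pow hm 2))
      (sub_add (sub_mul (sub_const 4) hb) (sub_const 2)))) (sub_const 1)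
  have hev := ((((h1 1).and (h2 1)).and (hm 1)).and (eventually_ge_atTop
    (N + (poly (nu i₁).2 N + i₁ + N + 2) + (poly (nu i₂).2 N + i₂ + N + 2) + 1))).exists
  obtain ⟨n, ⟨⟨hn1, hn2⟩, hn4⟩, hn3⟩ := hev
  simp only [pow_one] at hn1 hn2 hn4
  let s : Setup i₁ i₂ :=
    { U := U
      y₀ := y₀
      N := N
      hU := fun y hy => hN₀ y fun i hi => hy i (hi.trans hN0)
      hdis := hdis
      hfin := hfin
      hviol := hviol
      n₁ := n
      hn₁ := by omega
      ℓ := ℓ n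
      m := m n
      hm := hn4
      hℓ₁ := fun q hq => (stm_len_le i₁ q (m n) hq).trans (Nat.le_add_right _ _)
      hℓ₂ := fun q hq => (stm_len_le i₂ q (m n) hq).trans (Nat.le_add_left _ _)
      hN₁ := fun q hq => (stm_len_le i₁ q N hq).trans (by omega)
      hN₂ := fun q hq => (stm_len_le i₂ q N hq).trans (by omega)
      hB := Nat.lt_of_succ_le hn1 }
  exact ⟨s, rfl, rfl, Nat.lt_of_succ_le hn2⟩

/-- for the density of a requirement it suffices to refute that it fails for all tame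
parameters of a setup -/
theorem dense_req {a b : ℕ} {W : Par → List Bool → Prop} {T : ℕ → ℕ} (hT : Sub T)
    (h : ∀ s : Setup a b, s.m = s.n₁ + 2 * T s.n₁ →
      T s.n₁ * (1 + s.m ^ 2 + (4 * s.B + 2)) < 2 ^ s.n₁ →
      W s.y s.x₁ → (∀ u, W (s.yw u) s.x₁) → False) {U : Set Par}
    (hU : IsOpen U) (hne : (U ∩ {y | Tame y}).Nonempty) :
    (U ∩ closure {y | Tame y} ∩ Req a b W).Nonempty := by
  by_contra hcon
  rw [not_nonempty_iff_eq_empty, eq_empty_iff_forall_notMem] at hcon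
  have h0 : ∀ y ∈ U, Tame y → y ∉ Req a b W :=
    fun y hy ht hg => hcon y ⟨⟨hy, subset_closure ht⟩, hg⟩
  obtain ⟨y₀, hy₀, ht₀⟩ := hne
  obtain ⟨s, hs1, hs2, hs3⟩ := exists_setup hT hU hy₀ ht₀
    fun y hy ht q hq => h0 y hy ht (Or.inl ⟨q, hq⟩)
  have h1 : ∀ y ∈ s.U, Tame y → ∀ x, W y x := by
    intro y hy ht x
    by_contra hx
    exact h0 y (hs1 ▸ hy) ht (Or.inr (mem_iUnion.2 ⟨x, hx⟩))
  exact h s hs2 hs3 (h1 _ s.y_mem s.y_tame _) fun u => h1 _ (s.yw_mem u) (s.yw_tame u) _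

theorem dense_D (a b : ℕ) (M : Machine) {T : ℕ → ℕ} (hT : Sub T) {U : Set Par}
    (hU : IsOpen U) (hne : (U ∩ {y | Tame y}).Nonempty) :
    (U ∩ closure {y | Tame y} ∩ Req a b (WorksD a b M T)).Nonempty := by
  classical
  refine dense_req hT (fun s hs2 hs3 _ hw => ?_) hU hne
  have hx := s.x₁_len
  by_cases h : Acc a b M T s.y s.x₁
  · obtain ⟨u, hu0, hu⟩ := s.good true M [] (T s.n₁) (by simp; omega) hs3
    refine (hw u).2 ?_ ?_
    · have := s.test u
      rwa [hu0] at this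
    · unfold Acc at h ⊢
      rw [hx] at h ⊢
      exact hu.2 h
  · obtain ⟨u, hu0, hu⟩ := s.good false M [] (T s.n₁) (by simp; omega) hs3
    refine h ?_
    have h1 := (hw u).1 (by
      have := s.test u
      rwa [hu0] at this)
    unfold Acc at h1 ⊢
    rw [hx] at h1 ⊢
    exact hu.1 h1

theorem dense_N (a b : ℕ) (M : Machine) {T : ℕ → ℕ} (hT : Sub T) {U : Set Par}
    (hU : IsOpen U) (hne : (U ∩ {y | Tame y}).Nonempty) :
    (U ∩ closure {y | Tame y} ∩ Req a b (WorksN a b M T)).Nonempty := by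
  classical
  refine dense_req hT (fun s hs2 hs3 h0 hw => ?_) hU hne
  have hx := s.x₁_len
  obtain ⟨w, hw1, hw2⟩ := h0.1 (s.not_test false)
  rw [hx] at hw1 hw2
  obtain ⟨u, hu0, hu⟩ := s.good false M w (T s.n₁) (by
    have : max s.n₁ w.length ≤ s.n₁ + T s.n₁ := max_le (by omega) (by omega)
    omega) hs3
  refine (hw u).2 ⟨w, by rwa [hx], ?_⟩ ?_
  · rw [hx]
    exact hu.2 hw2
  · have := s.test u
    rwa [hu0] at this

theorem dense_2 (a b : ℕ) (M M' : Machine) {T T' : ℕ → ℕ} (hT : Sub T) (hT' : Sub T')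
    {U : Set Par} (hU : IsOpen U) (hne : (U ∩ {y | Tame y}).Nonempty) :
    (U ∩ closure {y | Tame y} ∩ Req a b (Works2 a b M M' T T')).Nonempty := by
  classical
  refine dense_req (sub_add hT hT') (fun s hs2 hs3 h0 hw => ?_) hU hne
  have hx := s.x₁_len
  have hB : ∀ t ≤ T s.n₁ + T' s.n₁, t * (1 + s.m ^ 2 + (4 * s.B + 2)) < 2 ^ s.n₁ :=
    fun t ht => (Nat.mul_le_mul_right _ ht).trans_lt hs3
  rcases h0.1 with ⟨w, hw1, hw2⟩ | ⟨w, hw1, hw2⟩
  · rw [hx] at hw1 hw2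
    obtain ⟨u, hu0, hu⟩ := s.good true M w (T s.n₁) (by
      have : max s.n₁ w.length ≤ s.n₁ + T s.n₁ := max_le (by omega) (by omega)
      omega) (hB _ (Nat.le_add_right _ _))
    refine (hw u).2.2 ?_ ⟨w, by rwa [hx], ?_⟩
    · have := s.test u
      rwa [hu0] at this
    · rw [hx]
      exact hu.2 hw2
  · rw [hx] at hw1 hw2
    obtain ⟨u, hu0, hu⟩ := s.good false M' w (T' s.n₁) (by
      have : max s.n₁ w.length ≤ s.n₁ + T' s.n₁ := max_le (by omega) (by omega)
      omega) (hB _ (Nat.le_add_left _ _))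
    refine (hw u).2.1 ?_ ⟨w, by rwa [hx], ?_⟩
    · have := s.test u
      rwa [hu0] at this
    · rw [hx]
      exact hu.2 hw2

/-- for generic parameters all the requirements hold -/
theorem exists_generic (T : ℕ → ℕ → ℕ) (hT : Subexponential T) :
    ∃ y ∈ closure {y | Tame y}, ∀ a b M c M' c', y ∈ Req a b (WorksD a b M (T c)) ∧
      y ∈ Req a b (WorksN a b M (T c)) ∧ y ∈ Req a b (Works2 a b M M' (T c) (T c')) := by
  obtain ⟨y, hy, hyG⟩ := baire_closure {y | Tame y} ⟨_, tame_zero⟩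
    (fun p : (ℕ × ℕ × Machine × ℕ × Machine × ℕ) × Fin 3 =>
      if p.2 = 0 then Req p.1.1 p.1.2.1 (WorksD p.1.1 p.1.2.1 p.1.2.2.1 (T p.1.2.2.2.1))
      else if p.2 = 1 then Req p.1.1 p.1.2.1 (WorksN p.1.1 p.1.2.1 p.1.2.2.1 (T p.1.2.2.2.1))
      else Req p.1.1 p.1.2.1 (Works2 p.1.1 p.1.2.1 p.1.2.2.1 p.1.2.2.2.2.1 (T p.1.2.2.2.1)
        (T p.1.2.2.2.2.2)))
    (by
      rintro ⟨⟨a, b, M, c, M', c'⟩, i⟩
      simp only
      split_ifs
      · exact isOpen_req (clopen_worksD _ _ _ _)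
      · exact isOpen_req (clopen_worksN _ _ _ _)
      · exact isOpen_req (clopen_works2 _ _ _ _ _ _))
    (by
      rintro ⟨⟨a, b, M, c, M', c'⟩, i⟩ U hU hne
      simp only
      split_ifs
      · exact dense_D a b M (hT c) hU hne
      · exact dense_N a b M (hT c) hU hne
      · exact dense_2 a b M M' (hT c) (hT c') hU hne)
  refine ⟨y, hy, fun a b M c M' c' => ⟨?_, ?_, ?_⟩⟩
  · have := hyG ((a, b, M, c, M', c'), 0)
    simpa using this
  · have := hyG ((a, b, M, c, M', c'), 1)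
    simpa using this
  · have := hyG ((a, b, M, c, M', c'), 2)
    simpa using this

/-- the consequences for a generic parameter -/
theorem final {T : ℕ → ℕ → ℕ} {y : Par} (hy : y ∈ closure {y | Tame y})
    (hG : ∀ a b M c M' c', y ∈ Req a b (WorksD a b M (T c)) ∧
      y ∈ Req a b (WorksN a b M (T c)) ∧ y ∈ Req a b (Works2 a b M M' (T c) (T c')))
    {A B : Set (List Bool)} (hAB : NPPair (OO y) A B) :
    ∃ S C D, Separator A B S ∧ NPPair (OO y) C D ∧ Inseparable T (OO y) S C D ∧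
      ¬ InNTime T (join (OO y) S) Cᶜ := by
  obtain ⟨hA, hB, hdisj⟩ := hAB
  obtain ⟨a, ha⟩ := (inNP_iff _ _).1 hA
  obtain ⟨b, hb⟩ := (inNP_iff _ _).1 hB
  have hdis : ¬ ∃ q, Tr (OO y) a q ∧ Tr (OO y) b q := by
    rintro ⟨q, h1, h2⟩
    exact Set.disjoint_left.1 hdisj ((ha q).2 h1) ((hb q).2 h2)
  have hK : y ∈ KK := isClosed_KK.closure_subset_iff.2 (fun y hy => hy.1) hy
  have hreq : ∀ {W : Par → List Bool → Prop}, y ∈ Req a b W → ∃ x, ¬ W y x := by
    rintro W (h | h)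
    · exact absurd h hdis
    · obtain ⟨x, hx⟩ := mem_iUnion.1 h
      exact ⟨x, hx⟩
  refine ⟨sep y a b, {x | inp a b false x ∈ Test (OO y)}, {x | inp a b true x ∈ Test (OO y)},
    ⟨fun x hx => if_pos ((ha x).1 hx), fun x hx => ?_⟩,
    ⟨inNP_inp _ _ _ _, inNP_inp _ _ _ _, ?_⟩, ?_, ?_⟩
  · unfold sep
    rw [if_neg fun h => hdis ⟨x, h, (hb x).1 hx⟩, if_pos ((hb x).1 hx)]
  · refine Set.disjoint_left.2 fun x h1 h2 => ?_
    obtain ⟨q, -, h3⟩ := hK a b x h1 h2
    exact hdis ⟨q, h3⟩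
  · intro E hCE hDE
    constructor
    · rintro ⟨M, c, h⟩
      obtain ⟨x, hx⟩ := hreq (hG a b M c M c).1
      exact hx ⟨fun h1 => (h x).1 (hCE h1),
        fun h1 h2 => Set.disjoint_left.1 hDE h1 ((h x).2 h2)⟩
    · rintro ⟨⟨M, c, h⟩, M', c', h'⟩
      obtain ⟨x, hx⟩ := hreq (hG a b M c M' c').2.2
      refine hx ⟨?_, fun h1 h2 => (h' x).2 h2 (hCE h1),
        fun h1 h2 => Set.disjoint_left.1 hDE h1 ((h x).2 h2)⟩
      by_cases hxE : x ∈ E
      · exact Or.inl ((h x).1 hxE)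
      · exact Or.inr ((h' x).1 hxE)
  · rintro ⟨M, c, h⟩
    obtain ⟨x, hx⟩ := hreq (hG a b M c M c).2.1
    exact hx (h x)

end ESY.Few2
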