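import Pool.Agent.Lib.MP_80aaf5_lc.Few2.Generic
import Pool.Agent.Lib.MP_80aaf5_lc.Few.Machine

/-!
# The final argument
-/

namespace ESY.Few2

open ESY ESY.Few

theorem inTime_mono {T T' : ℕ → ℕ → ℕ} (h : ∀ c, ∃ c', T' c' = T c) {O : Oracle}
    {L : Set (List Bool)} (hL : InTime T O L) : InTime T' O L := by
  obtain ⟨M, c, hM⟩ := hL
  obtain ⟨c', hc⟩ := h c
  exact ⟨M, c', fun x => by rw [hc]; exact hM x⟩

theorem inNTime_mono {T T' : ℕ → ℕ → ℕ} (h : ∀ c, ∃ c', T' c' = T c) {O : Oracle}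
    {L : Set (List Bool)} (hL : InNTime T O L) : InNTime T' O L := by
  obtain ⟨M, c, hM⟩ := hL
  obtain ⟨c', hc⟩ := h c
  exact ⟨M, c', fun x => by rw [hc]; exact hM x⟩

theorem inseparable_mono {T T' : ℕ → ℕ → ℕ} (h : ∀ c, ∃ c', T' c' = T c) {O S : Oracle}
    {C D : Set (List Bool)} (hI : Inseparable T' O S C D) : Inseparable T O S C D :=
  fun E h1 h2 => ⟨fun h3 => (hI E h1 h2).1 (inTime_mono h h3),
    fun h3 => (hI E h1 h2).2 ⟨inNTime_mono h h3.1, inNTime_mono h h3.2⟩⟩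

theorem main (T : ℕ → ℕ → ℕ) (hT : Subexponential T) :
    ∃ O : Oracle, (∀ L, InNP O L → InUPk 2 O L) ∧ ESYRel O ∧ (¬ ∃ A B, TComplete O A B) ∧
      ∀ A B, NPPair O A B → ∃ S C D, Separator A B S ∧ NPPair O C D ∧
        Inseparable T O S C D ∧ ¬ InNTime T (join O S) Cᶜ := by
  let T' : ℕ → ℕ → ℕ := fun c => if c % 2 = 0 then T (c / 2) else poly (c / 2)
  have hT' : Subexponential T' := by
    intro c k
    by_cases h : c % 2 = 0
    · simpa only [T', h, if_true] using hT (c / 2) k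
    · simpa only [T', h, if_false] using subexponential_poly (c / 2) k
  have h0 : ∀ c, ∃ c', T' c' = T c := fun c => ⟨2 * c, by simp [T']⟩
  have h1 : ∀ c, ∃ c', T' c' = poly c := by
    intro c
    refine ⟨2 * c + 1, ?_⟩
    have h2 : (2 * c + 1) % 2 ≠ 0 := by omega
    have h3 : (2 * c + 1) / 2 = c := by omega
    simp only [T', h2, if_false, h3]
  obtain ⟨y, hy, hG⟩ := exists_generic T' hT'
  refine ⟨OO y, fun L hL => ?_, ?_, ?_, fun A B hAB => ?_⟩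
  · obtain ⟨e, he⟩ := (inNP_iff _ _).1 hL
    exact upk_of_world (len_pdOf y) (isWorld_OO y) he
  · rintro ⟨A, B, ⟨-, -, hA, hB, hdis⟩, hhard⟩
    obtain ⟨S, C, D, hS, hCD, hI, -⟩ := final hy hG ⟨hA, hB, hdis⟩
    exact (inseparable_mono h1 hI C subset_rfl hCD.2.2.symm).1 (hhard S hS C hCD.1)
  · rintro ⟨A, B, hAB, hc⟩
    obtain ⟨S, C, D, hS, hCD, hI, -⟩ := final hy hG hAB
    obtain ⟨E, hCE, hDE, hE⟩ := hc C D hCD S hS
    exact (inseparable_mono h1 hI E hCE hDE).1 hE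
  · obtain ⟨S, C, D, hS, hCD, hI, hN⟩ := final hy hG hAB
    exact ⟨S, C, D, hS, hCD, inseparable_mono h0 hI, fun h => hN (inNTime_mono h0 h)⟩

end ESY.Few2
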