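import Pool.Agent.Lib.MP_80aaf5_lc.Few.Family

/-!
# The base world and its perturbations, for two inputs
-/

namespace ESY.Few2

open ESY ESY.Few

/-- two inputs of the same length -/
structure Frame : Type where
  n : ℕ
  X : Bool → List Bool
  hX : ∀ σ, (X σ).length = n
  hXi : X false ≠ X true

namespace Frame

variable (f : Frame)

theorem X_inj {σ τ : Bool} (h : f.X σ = f.X τ) : σ = τ := by
  cases σ <;> cases τ
  · rfl
  · exact absurd h f.hXi
  · exact absurd h.symm f.hXi
  · rfl

/-- the string `r` belongs to the block of the label `σ w` -/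
def Blk : List Bool → List Bool → Prop
  | [], _ => False
  | σ :: w, r => ∃ j ≤ f.n, r = qstr (f.X σ) w j

variable {f}

theorem blk_inj {w w' r : List Bool} (hw : w.length = f.n + 1) (hw' : w'.length = f.n + 1)
    (h : f.Blk w r) (h' : f.Blk w' r) : w = w' := by
  match w, w', hw, hw', h, h' with
  | [], _, hw, _, _, _ => simp at hw
  | _ :: _, [], _, hw', _, _ => simp at hw'
  | σ :: v, τ :: v', hw, hw', h, h' =>
    obtain ⟨j, -, hj⟩ := h
    obtain ⟨j', -, hj'⟩ := h'
    simp only [List.length_cons, Nat.add_right_cancel_iff] at hw hw'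
    obtain ⟨h1, h2, -⟩ := qstr_inj (by rw [hw, f.hX]) (by rw [f.hX, f.hX]) (by rw [hw', f.hX])
      (hj.symm.trans hj')
    rw [f.X_inj h1, h2]

theorem blk_len {w r : List Bool} (hw : w.length = f.n + 1) (h : f.Blk w r) :
    2 * f.n + 1 ≤ r.length ∧ r.length ≤ 3 * f.n + 1 := by
  match w, hw, h with
  | [], hw, _ => simp at hw
  | σ :: v, hw, h =>
    obtain ⟨j, hj1, rfl⟩ := h
    simp only [List.length_cons, Nat.add_right_cancel_iff] at hw
    rw [qstr_length _ _ _ (by rw [hw, f.hX]), f.hX]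
    omega

theorem blk_cons {w r : List Bool} (h : f.Blk w r) : ∃ s, r = true :: s := by
  match w, h with
  | σ :: v, h =>
    obtain ⟨j, -, rfl⟩ := h
    exact ⟨_, qstr_cons _ _ _⟩

end Frame

theorem lab_length {w : List Bool} {e : ℕ} {x : List Bool} (h : w.length ≤ (stm e x).length) :
    (lab w e x).length = (stm e x).length ^ 2 := by
  have : (stm e x).length ≤ (stm e x).length ^ 2 := Nat.le_self_pow (by norm_num) _
  simp only [lab, List.length_append, List.length_replicate]
  omega

/-- the string `r` bears the label `w` -/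
def Hit (f : Frame) (w r : List Bool) : Prop :=
  f.Blk w r ∨ ∃ e x, f.n < (stm e x).length ∧ r = false :: cs (lab w e x) (stm e x)

theorem hit_unique {f : Frame} {w w' r : List Bool} (hw : w.length = f.n + 1)
    (hw' : w'.length = f.n + 1) (h : Hit f w r) (h' : Hit f w' r) : w = w' := by
  rcases h with h | ⟨e, x, -, h⟩ <;> rcases h' with h' | ⟨e', x', -, h'⟩
  · exact Frame.blk_inj hw hw' h h'
  · obtain ⟨s, hs⟩ := Frame.blk_cons h
    rw [h'] at hs
    exact absurd (List.cons.inj hs).1 (by decide)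
  · obtain ⟨s, hs⟩ := Frame.blk_cons h'
    rw [h] at hs
    exact absurd (List.cons.inj hs).1 (by decide)
  · have h1 := (List.cons.inj (h.symm.trans h')).2
    obtain ⟨h2, h3⟩ := cs_inj h1
    obtain ⟨rfl, rfl⟩ := stm_inj h3
    exact lab_inj (hw.trans hw'.symm) h2

/-- no string of `S` bears the label `w` -/
def Free (f : Frame) (w : List Bool) (S : Set (List Bool)) : Prop := ∀ r ∈ S, ¬ Hit f w r

/-! ### the base world -/

/-- the base world -/
structure Base : Type where
  /-- the inputs -/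
  f : Frame
  pd : Pads
  D : Oracle
  hp : Len pd

namespace Base

variable (b : Base)

/-- the oracle of the base world -/
noncomputable def O : Oracle := world b.pd b.D

theorem isW : IsWorld b.pd b.D b.O := isWorld b.hp _

/-- query sets of the base world -/
noncomputable def Q (e : ℕ) (x : List Bool) : Finset (List Bool) := qs b.O e x (wit b.O e x)

theorem qb : QB b.Q := fun e x => qs_bound _ _ _ _ (wit_len _ _ _)

/-- the statement is affected by the label `w` -/
def Aff (w : List Bool) (e : ℕ) (x : List Bool) : Prop :=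
  ¬ (Tr b.O e x ∧ Free b.f w (clos b.Q b.O (b.Q e x)))

open Classical in
/-- the pads of the perturbed world -/
noncomputable def pdw (w : List Bool) : Pads := fun e x i =>
  if (stm e x).length ≤ b.f.n ∨ ¬ b.Aff w e x then b.pd e x i else lab w e x

open Classical in
/-- the free part, with the blocks of the words in `W` -/
noncomputable def Dw (W : Set (List Bool)) : Oracle := fun s =>
  if ∃ w ∈ W, b.f.Blk w (true :: s) then true else b.D s

variable {b} {w : List Bool}

theorem pdw_short {e : ℕ} {x : List Bool} (h : (stm e x).length ≤ b.f.n) (i : Bool) :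
    b.pdw w e x i = b.pd e x i := if_pos (Or.inl h)

theorem pdw_unaff {e : ℕ} {x : List Bool} (h : ¬ b.Aff w e x) (i : Bool) :
    b.pdw w e x i = b.pd e x i := if_pos (Or.inr h)

theorem pdw_aff {e : ℕ} {x : List Bool} (h : b.Aff w e x) (hl : b.f.n < (stm e x).length)
    (i : Bool) : b.pdw w e x i = lab w e x :=
  if_neg (not_or.2 ⟨not_le.2 hl, not_not.2 h⟩)

theorem pdw_len (hw : w.length = b.f.n + 1) : Len (b.pdw w) := by
  intro e x i
  by_cases h1 : (stm e x).length ≤ b.f.n
  · rw [pdw_short h1]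
    exact b.hp e x i
  · by_cases h2 : b.Aff w e x
    · rw [pdw_aff h2 (not_le.1 h1)]
      exact lab_length (by omega)
    · rw [pdw_unaff h2]
      exact b.hp e x i

theorem Dw_pos {W : Set (List Bool)} {s : List Bool}
    (h : ∃ w ∈ W, b.f.Blk w (true :: s)) : b.Dw W s = true := if_pos h

theorem Dw_neg {W : Set (List Bool)} {s : List Bool}
    (h : ¬ ∃ w ∈ W, b.f.Blk w (true :: s)) : b.Dw W s = b.D s := if_neg h

theorem Dw_short {W : Set (List Bool)} (hW : ∀ w ∈ W, w.length = b.f.n + 1) {s : List Bool}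
    (h : s.length < 2 * b.f.n) : b.Dw W s = b.D s := by
  refine Dw_neg ?_
  rintro ⟨w, hw, h1⟩
  have := (Frame.blk_len (hW w hw) h1).1
  rw [List.length_cons] at this
  omega

variable (b w) in
/-- the perturbed oracle -/
noncomputable def Ow : Oracle := world (b.pdw w) (b.Dw {w})

theorem isWw (hw : w.length = b.f.n + 1) : IsWorld (b.pdw w) (b.Dw {w}) (b.Ow w) :=
  isWorld (pdw_len hw) _

theorem agree_w (hw : w.length = b.f.n + 1) : Agree (2 * b.f.n) b.O (b.Ow w) :=
  short_agree b.hp (pdw_len hw) b.isW (isWw hw) _ (fun _ _ i h => (pdw_short h i).symm)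
    fun _ hs => (Dw_short (by rintro _ rfl; exact hw) hs).symm

theorem tr_short {O O' : Oracle} {n : ℕ} (h : Agree (2 * n) O O') {e : ℕ} {x : List Bool}
    (hs : (stm e x).length ≤ n) : Tr O e x ↔ Tr O' e x :=
  tr_congr (h.mono (by omega))

theorem sup_base : ∀ e x, Tr b.O e x → ∃ u : List Bool, u.length ≤ tb e x ∧
    AcceptsIn b.O (nu e).1 x u (tb e x) ∧
    ∀ s ∈ asked b.O (nu e).1 (tb e x) (start (nu e).1 x u), s ∈ b.Q e x :=
  fun _ _ h => ⟨_, (wit_spec h).1, (wit_spec h).2, fun _ hs => List.mem_toFinset.2 hs⟩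

/-- the perturbed oracle agrees with the base on closed sets without the label -/
theorem agree_free (hw : w.length = b.f.n + 1) {S : Set (List Bool)}
    (hS : Closed b.Q b.O S) (hf : Free b.f w S) : ∀ r ∈ S, b.Ow w r = b.O r := by
  refine transfer b.hp b.isW (isWw hw) sup_base b.qb hS ?_ ?_ ?_
  · intro s hs
    refine Dw_neg ?_
    rintro ⟨w', rfl, h1⟩
    exact hf _ hs (Or.inl h1)
  · intro e x i hs ht
    refine ⟨i, ?_⟩
    refine pdw_unaff (not_not.2 ⟨ht, ?_⟩) i
    rintro r ⟨r₀, h0, h1⟩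
    refine hf r (h1.mem_closed hS (hS e x _ hs ?_ r₀ h0))
    exact (b.isW.code_iff _ _ _).2 ⟨⟨i, rfl⟩, ht⟩
  · intro e x i hs ht
    by_cases h1 : (stm e x).length ≤ b.f.n
    · rw [pdw_short h1]
      exact (b.isW.code_iff _ _ _).2 ⟨⟨i, rfl⟩, (tr_short (agree_w hw) h1).2 ht⟩
    · by_cases h2 : b.Aff w e x
      · rw [pdw_aff h2 (not_le.1 h1)] at hs
        exact absurd (Or.inr ⟨e, x, not_le.1 h1, rfl⟩) (hf _ hs)
      · rw [pdw_unaff h2]
        exact (b.isW.code_iff _ _ _).2 ⟨⟨i, rfl⟩, (not_not.1 h2).1⟩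

theorem unaff_agree (hw : w.length = b.f.n + 1) {e : ℕ} {x : List Bool} (h : ¬ b.Aff w e x) :
    ∀ r ∈ clos b.Q b.O (b.Q e x), b.Ow w r = b.O r :=
  agree_free hw (closed_clos _ _ _) (not_not.1 h).2

theorem unaff_accepts (hw : w.length = b.f.n + 1) {e : ℕ} {x : List Bool} (h : ¬ b.Aff w e x) :
    AcceptsIn (b.Ow w) (nu e).1 x (wit b.O e x) (tb e x) := by
  refine (accepts_congr fun s hs => ?_).2 (wit_spec (not_not.1 h).1).2
  exact unaff_agree hw h s (subset_clos (List.mem_toFinset.2 hs))

theorem unaff_tr (hw : w.length = b.f.n + 1) {e : ℕ} {x : List Bool} (h : ¬ b.Aff w e x) :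
    Tr (b.Ow w) e x := ⟨_, wit_len _ _ _, unaff_accepts hw h⟩

open Classical in
variable (b w) in
/-- query sets of the perturbed world -/
noncomputable def Qw (e : ℕ) (x : List Bool) : Finset (List Bool) :=
  if b.Aff w e x then qs (b.Ow w) e x (wit (b.Ow w) e x) else b.Q e x

theorem qbw : QB (b.Qw w) := by
  intro e x
  unfold Qw
  split_ifs
  · exact qs_bound _ _ _ _ (wit_len _ _ _)
  · exact b.qb e x

theorem Qw_unaff {e : ℕ} {x : List Bool} (h : ¬ b.Aff w e x) : b.Qw w e x = b.Q e x := if_neg h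

theorem sup_w (hw : w.length = b.f.n + 1) : ∀ e x, Tr (b.Ow w) e x →
    ∃ u : List Bool, u.length ≤ tb e x ∧ AcceptsIn (b.Ow w) (nu e).1 x u (tb e x) ∧
    ∀ s ∈ asked (b.Ow w) (nu e).1 (tb e x) (start (nu e).1 x u), s ∈ b.Qw w e x := by
  intro e x ht
  by_cases h : b.Aff w e x
  · unfold Qw
    rw [if_pos h]
    exact ⟨_, (wit_spec ht).1, (wit_spec ht).2, fun _ hs => List.mem_toFinset.2 hs⟩
  · rw [Qw_unaff h]
    refine ⟨_, wit_len b.O e x, unaff_accepts hw h, fun s hs => ?_⟩
    rw [Few.Base.asked_congr _ _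
      fun s hs => unaff_agree hw h s (subset_clos (List.mem_toFinset.2 hs))] at hs
    exact List.mem_toFinset.2 hs

/-- A closed set of the perturbed world that contains a positive code of an unaffected statement
contains the whole base closure of the statement. -/
theorem base_closure (hw : w.length = b.f.n + 1) {S : Set (List Bool)}
    (hS : Closed (b.Qw w) (b.Ow w) S) {e : ℕ} {x : List Bool} (h : ¬ b.Aff w e x)
    (hq : ∀ r ∈ b.Q e x, r ∈ S) : ∀ r ∈ clos b.Q b.O (b.Q e x), r ∈ S := by
  rintro r ⟨r₀, h0, h1⟩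
  induction h1 with
  | base => exact hq _ h0
  | @step e' x' z' r' h2 h3 h4 ih =>
    have h5 : b.Ow w (false :: cs z' (stm e' x')) = true :=
      (unaff_agree hw h _ ⟨r₀, h0, h2⟩).trans h3
    refine hS e' x' z' ih h5 r' ?_
    rw [Qw_unaff ?_]
    · exact h4
    · refine not_not.2 ⟨((b.isW.code_iff _ _ _).1 h3).2, ?_⟩
      rintro s ⟨s₀, h6, h7⟩
      exact (not_not.1 h).2 s ⟨r₀, h0, (h2.step h3 h6).trans h7⟩

end Base

end ESY.Few2
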