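import Pool.Agent.Lib.MP_80aaf5_lc.Few2.Union
import Pool.Agent.Lib.MP_80aaf5_lc.Few.Generic
import Pool.Agent.Lib.MP_b9add9_lc.Uni.Fork

/-!
# Tame parameters; the setup of the density argument
-/

namespace ESY.Few2

open ESY ESY.Few Set
open ESY.Uni (inp inp_length inp_inj)

/-- the closed condition on the parameters -/
def KK : Set Par := {y | ∀ a b x, inp a b false x ∈ Test (OO y) → inp a b true x ∈ Test (OO y) →
  ∃ q : List Bool, q.length ≤ 2 ^ (inp a b false x).length ∧ Tr (OO y) a q ∧ Tr (OO y) b q}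

theorem isClosed_KK : IsClosed KK := by
  have h1 : KK = ⋂ a, ⋂ b, ⋂ x, ({y | inp a b false x ∈ Test (OO y)}ᶜ ∪
      ({y | inp a b true x ∈ Test (OO y)}ᶜ ∪
      ⋃ q ∈ {q : List Bool | q.length ≤ 2 ^ (inp a b false x).length},
        ({y | Tr (OO y) a q} ∩ {y | Tr (OO y) b q}))) := by
    ext y
    simp only [KK, mem_ofPred_eq, mem_iInter, mem_union, mem_compl_iff, mem_iUnion, exists_prop,
      mem_inter_iff]
    refine forall_congr' fun a => forall_congr' fun b => forall_congr' fun x => ?_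
    rw [← imp_iff_not_or, ← imp_iff_not_or]
  rw [h1]
  refine isClosed_iInter fun a => isClosed_iInter fun b => isClosed_iInter fun x => ?_
  refine (clopen_test _).compl.1.union ((clopen_test _).compl.1.union ?_)
  exact ((List.finite_length_le Bool _).isClopen_biUnion fun q _ =>
    (clopen_trO a q).inter (clopen_trO b q)).1

/-- the tame parameters -/
def Tame (y : Par) : Prop := y ∈ KK ∧ ∃ N, ∀ s : List Bool, N < s.length → DOf y s = false

theorem test_free {y : Par} {x : List Bool} (h : x ∈ Test (OO y)) :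
    ∃ s : List Bool, s.length = 2 * x.length ∧ DOf y s = true := by
  obtain ⟨w, hw, hj⟩ := h
  have h0 := hj 0 (Nat.zero_le _)
  have hl := qstr_length x w 0 hw
  rw [qstr_cons] at h0 hl
  rw [(isWorld_OO y).free] at h0
  refine ⟨_, ?_, h0⟩
  simp only [List.length_cons] at hl
  omega

theorem tame_zero : Tame (fun _ => false) := by
  refine ⟨fun a b x h _ => ?_, 0, fun s _ => rfl⟩
  obtain ⟨s, -, hs⟩ := test_free h
  exact absurd hs (by simp [DOf])

theorem tame_bound {y₀ : Par} (h : Tame y₀) (N₀ : ℕ) : ∃ N, N₀ ≤ N ∧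
    (∀ s : List Bool, N ≤ s.length → DOf y₀ s = false) ∧
    ∀ a b x, inp a b false x ∈ Test (OO y₀) → inp a b true x ∈ Test (OO y₀) →
      ∃ q : List Bool, q.length ≤ 2 ^ (inp a b false x).length ∧ Tr (OO y₀) a q ∧
        Tr (OO y₀) b q ∧ (stm a q).length ≤ N ∧ (stm b q).length ≤ N := by
  classical
  obtain ⟨hK, N₁, hN₁⟩ := h
  have hfin : {p : ℕ × ℕ × List Bool | (inp p.1 p.2.1 false p.2.2).length ≤ N₁}.Finite := by
    refine Set.Finite.of_finite_image (f := fun p : ℕ × ℕ × List Bool => inp p.1 p.2.1 false p.2.2)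
      ((List.finite_length_le Bool N₁).subset ?_) ?_
    · rintro _ ⟨p, hp, rfl⟩
      exact hp
    · rintro ⟨a, b, x⟩ _ ⟨a', b', x'⟩ _ h
      obtain ⟨rfl, rfl, -, rfl⟩ := inp_inj h
      rfl
  have hq : ∀ p : ℕ × ℕ × List Bool, ∃ q : List Bool,
      inp p.1 p.2.1 false p.2.2 ∈ Test (OO y₀) → inp p.1 p.2.1 true p.2.2 ∈ Test (OO y₀) →
      (q.length ≤ 2 ^ (inp p.1 p.2.1 false p.2.2).length ∧ Tr (OO y₀) p.1 q ∧
        Tr (OO y₀) p.2.1 q) := by
    intro p
    by_cases h1 : inp p.1 p.2.1 false p.2.2 ∈ Test (OO y₀) ∧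
        inp p.1 p.2.1 true p.2.2 ∈ Test (OO y₀)
    · obtain ⟨q, hq⟩ := hK _ _ _ h1.1 h1.2
      exact ⟨q, fun _ _ => hq⟩
    · exact ⟨[], fun h2 h3 => absurd ⟨h2, h3⟩ h1⟩
  choose q hq using hq
  refine ⟨N₀ + (N₁ + 1) + hfin.toFinset.sup fun p => (stm p.1 (q p)).length +
    (stm p.2.1 (q p)).length, by omega, fun s hs => hN₁ s (by omega), ?_⟩
  intro a b x h1 h2
  have h3 := hq (a, b, x) h1 h2
  refine ⟨q (a, b, x), h3.1, h3.2.1, h3.2.2, ?_⟩
  have h4 : (inp a b false x).length ≤ N₁ := by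
    obtain ⟨s, hs, hD⟩ := test_free h1
    by_contra hcon
    rw [hN₁ s (by omega)] at hD
    exact absurd hD (by decide)
  have h5 := Finset.le_sup (s := hfin.toFinset) (f := fun p : ℕ × ℕ × List Bool =>
    (stm p.1 (q p)).length + (stm p.2.1 (q p)).length) (b := (a, b, x)) (by simpa using h4)
  simp only at h5
  omega

/-- The data of the density argument. -/
structure Setup (a b : ℕ) : Type where
  U : Set Par
  y₀ : Par
  N : ℕ
  hU : ∀ y : Par, (∀ i, sz i ≤ N → y i = y₀ i) → y ∈ U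
  hdis : ∀ y ∈ U, Tame y → ∀ q, ¬ (Tr (OO y) a q ∧ Tr (OO y) b q)
  hfin : ∀ s : List Bool, N ≤ s.length → DOf y₀ s = false
  hviol : ∀ a' b' x, inp a' b' false x ∈ Test (OO y₀) → inp a' b' true x ∈ Test (OO y₀) →
    ∃ q : List Bool, q.length ≤ 2 ^ (inp a' b' false x).length ∧ Tr (OO y₀) a' q ∧
      Tr (OO y₀) b' q ∧ (stm a' q).length ≤ N ∧ (stm b' q).length ≤ N
  n₁ : ℕ
  hn₁ : N ≤ n₁
  ℓ : ℕ
  m : ℕ
  hm : m ≤ 2 ^ n₁
  hℓ₁ : ∀ q : List Bool, q.length ≤ m → (stm a q).length ≤ ℓ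
  hℓ₂ : ∀ q : List Bool, q.length ≤ m → (stm b q).length ≤ ℓ
  hN₁ : ∀ q : List Bool, q.length ≤ N → (stm a q).length ≤ n₁
  hN₂ : ∀ q : List Bool, q.length ≤ N → (stm b q).length ≤ n₁
  hB : ℓ * (1 + (2 * ℓ) ^ 2) + ℓ * (1 + (2 * ℓ) ^ 2) < 2 ^ n₁

namespace Setup

variable {i₁ i₂ : ℕ} (s : Setup i₁ i₂)

/-- the input of the pair -/
def x₁ : List Bool := List.replicate s.n₁ false

theorem x₁_len : s.x₁.length = s.n₁ := by simp [x₁]

/-- the length of the coded inputs -/
def n : ℕ := i₁ + i₂ + 3 + s.n₁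

/-- the coded inputs -/
def X (σ : Bool) : List Bool := inp i₁ i₂ σ s.x₁

theorem X_len (σ : Bool) : (s.X σ).length = s.n := by
  rw [X, inp_length, x₁_len, n]

theorem n₁_le : s.n₁ ≤ s.n := by unfold n; omega

theorem pow_le : 2 ^ s.n₁ ≤ 2 ^ s.n := Nat.pow_le_pow_right (by norm_num) s.n₁_le

theorem N_lt : s.N < s.n := by
  have := s.hn₁
  unfold n
  omega

/-- the frame -/
def f : Frame where
  n := s.n
  X := s.X
  hX := s.X_len
  hXi := fun h => absurd (inp_inj h).2.2.1 (by decide)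

theorem f_n : s.f.n = s.n := rfl

/-- the base world -/
noncomputable def b : Base where
  f := s.f
  pd := pdOf s.y₀
  D := DOf s.y₀
  hp := len_pdOf _

theorem b_f : s.b.f = s.f := rfl

theorem b_n : s.b.f.n = s.n := rfl

theorem b_O : s.b.O = OO s.y₀ := rfl

/-- sets of words of the right length -/
def Words (W : Set (List Bool)) : Prop := ∀ w ∈ W, w.length = s.b.f.n + 1

/-- sets with words of both kinds -/
def Both (W : Set (List Bool)) : Prop := ∃ v v' : List Bool, (false :: v) ∈ W ∧ (true :: v') ∈ W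

theorem test_old {W : Set (List Bool)} (hW : s.Words W) {pd : Pads} {O : Oracle}
    (hO : IsWorld pd (s.b.Dw W) O) {z : List Bool} (h : z ∈ Test O) :
    z ∈ Test (OO s.y₀) ∨ ∃ σ v, (σ :: v) ∈ W ∧ z = s.X σ := by
  by_cases h0 : ∃ σ v, (σ :: v) ∈ W ∧ z = s.X σ
  · exact Or.inr h0
  · left
    obtain ⟨w, hw, hj⟩ := h
    have hfree : ∀ j ≤ z.length, (¬ ∃ p ∈ W, s.b.f.Blk p (qstr z w j)) →
        2 * z.length + j < s.N := by
      intro j hjn h2
      have h1 := hj j hjn
      rw [qstr_cons] at h2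
      rw [qstr_cons, hO.free, Base.Dw_neg h2] at h1
      by_contra hcon
      have h3 := qstr_length z w j hw
      rw [qstr_cons, List.length_cons] at h3
      have h4 := s.hfin (qstr z w j).tail (by
        rw [qstr_cons, List.tail_cons]
        omega)
      rw [qstr_cons, List.tail_cons] at h4
      rw [show s.b.D = DOf s.y₀ from rfl, h4] at h1
      exact absurd h1 (by decide)
    have hlen : ∀ j ≤ z.length, ∀ p ∈ W, s.b.f.Blk p (qstr z w j) → z.length = s.n := by
      intro j hjn p hp hb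
      have h1 := Frame.blk_len (hW p hp) hb
      rw [qstr_length z w j hw, s.b_n] at h1
      have hN := s.N_lt
      by_contra hne
      rcases Nat.lt_or_gt_of_ne hne with hlt | hgt
      · have h2 := hfree 0 (Nat.zero_le _) (by
          rintro ⟨p', hp', hb'⟩
          have h3 := (Frame.blk_len (hW p' hp') hb').1
          rw [qstr_length z w 0 hw, s.b_n] at h3
          omega)
        omega
      · have h2 := hfree z.length le_rfl (by
          rintro ⟨p', hp', hb'⟩
          have h3 := (Frame.blk_len (hW p' hp') hb').2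
          rw [qstr_length z w _ hw, s.b_n] at h3
          omega)
        omega
    refine ⟨w, hw, fun j hjn => ?_⟩
    have h1 := hj j hjn
    have h2 : ¬ ∃ p ∈ W, s.b.f.Blk p (qstr z w j) := by
      rintro ⟨p, hp, hb⟩
      have h3 := hlen j hjn p hp hb
      have h6 := hW p hp
      match p, hp, hb, h6 with
      | [], _, _, h6 => simp at h6
      | σ :: v, hp, hb, h6 =>
        obtain ⟨j', -, h4⟩ := hb
        simp only [List.length_cons, Nat.add_right_cancel_iff] at h6
        have h5 := qstr_inj hw (by rw [s.b_f]; exact (s.X_len σ).trans h3.symm)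
          (h6.trans (s.b_n.trans h3.symm)) h4
        exact h0 ⟨σ, v, hp, h5.1⟩
    rw [qstr_cons] at h2
    rw [qstr_cons, hO.free, Base.Dw_neg h2] at h1
    rw [qstr_cons, (isWorld_OO _).free]
    exact h1

theorem old_len {z : List Bool} (h : z ∈ Test (OO s.y₀)) : z.length < s.n := by
  obtain ⟨r, hr, hD⟩ := test_free h
  by_contra hcon
  have hN := s.N_lt
  rw [s.hfin r (by omega)] at hD
  exact absurd hD (by decide)

/-- the constructed parameters are tame -/
theorem mk_tame {W : Set (List Bool)} (hW : s.Words W) {pd : Pads} (hp : Len pd)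
    (h1 : ∀ e x i, (stm e x).length ≤ s.b.f.n → pd e x i = s.b.pd e x i)
    (hq : Both W → ∃ q : List Bool, q.length ≤ 2 ^ s.n₁ ∧
      Tr (world pd (s.b.Dw W)) i₁ q ∧ Tr (world pd (s.b.Dw W)) i₂ q) (sg : ℕ → ℕ → Oracle) :
    Tame (mkPar s.y₀ pd (s.b.Dw W) sg) := by
  have hO : IsWorld pd (s.b.Dw W) (world pd (s.b.Dw W)) := isWorld hp _
  have hag : Agree (2 * s.n) (OO s.y₀) (world pd (s.b.Dw W)) :=
    short_agree (len_pdOf _) hp (isWorld_OO _) hO _
      (fun e x i h => (h1 e x i h).symm) fun r hr => (Base.Dw_short hW hr).symm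
  constructor
  · intro a' b' x h1 h2
    rw [OO_mk _ hp] at h1 h2 ⊢
    have hX : ∀ (σ σ' : Bool), inp a' b' σ x = s.X σ' → a' = i₁ ∧ b' = i₂ ∧ σ = σ' ∧ x = s.x₁ :=
      fun σ σ' h => inp_inj h
    have hl : ∀ σ, (inp a' b' σ x).length = (inp a' b' false x).length := by
      intro σ
      rw [inp_length, inp_length]
    rcases s.test_old hW hO h1 with h3 | ⟨σ, v, hp, h3⟩ <;>
      rcases s.test_old hW hO h2 with h4 | ⟨σ', v', hp', h4⟩
    · obtain ⟨q, hq1, hq2, hq3, hq4, hq5⟩ := s.hviol a' b' x h3 h4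
      have hN := s.N_lt
      exact ⟨q, hq1, (Base.tr_short hag (by omega)).1 hq2, (Base.tr_short hag (by omega)).1 hq3⟩
    · exfalso
      have h5 := s.old_len h3
      have h6 := hl true
      rw [h4, X_len] at h6
      omega
    · exfalso
      have h5 := s.old_len h4
      have h6 := hl true
      rw [h3, X_len] at h6
      omega
    · obtain ⟨rfl, rfl, h5, rfl⟩ := hX _ _ h3
      obtain ⟨-, -, h6, -⟩ := hX _ _ h4
      subst h5 h6
      obtain ⟨q, hq1, hq2⟩ := hq ⟨v, v', hp, hp'⟩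
      refine ⟨q, hq1.trans ?_, hq2⟩
      rw [h3, X_len]
      exact s.pow_le
  · refine ⟨s.N + 3 * s.n, fun r hr => ?_⟩
    rw [DOf_mk, Base.Dw_neg]
    · exact s.hfin r (by omega)
    · rintro ⟨p, hp, h⟩
      have := (Frame.blk_len (hW p hp) h).2
      rw [List.length_cons, s.b_n] at this
      omega

end Setup

end ESY.Few2
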