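import Pool.Agent.Lib.MP_80aaf5_lc.Few2.Family

/-!
# The union of two perturbations
-/

namespace ESY.Few2.Base

open ESY ESY.Few

variable {b : Base} {w w' : List Bool}

variable (b) in
/-- `S` contains a positive code of the statement in the world of `w` -/
def Pos (w : List Bool) (S : Set (List Bool)) (e : ℕ) (x : List Bool) : Prop :=
  ∃ z, (false :: cs z (stm e x)) ∈ S ∧ b.Ow w (false :: cs z (stm e x)) = true

theorem pos_unaff (hw : w.length = b.f.n + 1) {S : Set (List Bool)}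
    (hS : Closed (b.Qw w) (b.Ow w) S) (hf : Free b.f w' S) {e : ℕ} {x : List Bool}
    (hpos : b.Pos w S e x) (h : ¬ b.Aff w e x) : ¬ b.Aff w' e x := by
  obtain ⟨z, hz1, hz2⟩ := hpos
  have h1 : ∀ r ∈ b.Q e x, r ∈ S := by
    intro r hr
    refine hS e x z hz1 hz2 r ?_
    rw [Qw_unaff h]
    exact hr
  exact not_not.2 ⟨(not_not.1 h).1, fun r hr => hf r (base_closure hw hS h h1 r hr)⟩

theorem half (hw : w.length = b.f.n + 1) (hw' : w'.length = b.f.n + 1)
    {S₁ S₂ : Set (List Bool)} (hS₁ : Closed (b.Qw w) (b.Ow w) S₁)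
    (hS₂ : Closed (b.Qw w') (b.Ow w') S₂) (hf₁ : Free b.f w' S₁) (hf₂ : Free b.f w S₂)
    {pdu : Pads} {Du : Oracle} (hpu : Len pdu)
    (hshort : ∀ e x i, (stm e x).length ≤ b.f.n → pdu e x i = b.pd e x i)
    (P1 : ∀ e x, b.f.n < (stm e x).length → b.Pos w S₁ e x →
      ∀ i, ∃ i', pdu e x i' = b.pdw w e x i)
    (P3 : ∀ e x, b.f.n < (stm e x).length → ∀ i',
      (b.Pos w S₁ e x ∧ ∃ i, pdu e x i' = b.pdw w e x i) ∨
      (b.Pos w' S₂ e x ∧ ∃ i, pdu e x i' = b.pdw w' e x i) ∨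
      (false :: cs (pdu e x i') (stm e x)) ∉ S₁)
    (hD1 : ∀ s, (true :: s) ∈ S₁ → Du s = b.Dw {w} s)
    (hD2 : ∀ s : List Bool, s.length < 2 * b.f.n → Du s = b.D s) :
    ∀ r ∈ S₁, world pdu Du r = b.Ow w r := by
  have hWu := isWorld hpu Du
  have hag : Agree (2 * b.f.n) b.O (world pdu Du) :=
    short_agree b.hp hpu b.isW hWu _ (fun e x i h => (hshort e x i h).symm)
      fun s hs => (hD2 s hs).symm
  refine transfer (pdw_len hw) (isWw hw) hWu (sup_w hw) qbw hS₁ hD1 ?_ ?_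
  · intro e x i hs ht
    by_cases h1 : (stm e x).length ≤ b.f.n
    · exact ⟨i, by rw [hshort e x i h1, pdw_short h1]⟩
    · exact P1 e x (not_le.1 h1) ⟨_, hs, ((isWw hw).code_iff _ _ _).2 ⟨⟨i, rfl⟩, ht⟩⟩ i
  · intro e x i' hs ht
    by_cases h1 : (stm e x).length ≤ b.f.n
    · refine ((isWw hw).code_iff _ _ _).2 ⟨⟨i', ?_⟩, ?_⟩
      · rw [hshort e x i' h1, pdw_short h1]
      · exact (tr_short (agree_w hw) h1).1 ((tr_short hag h1).2 ht)
    · rcases P3 e x (not_le.1 h1) i' with ⟨⟨z, -, hz⟩, i, hi⟩ | ⟨hpos, i, hi⟩ | h3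
      · exact ((isWw hw).code_iff _ _ _).2 ⟨⟨i, hi⟩, (((isWw hw).code_iff _ _ _).1 hz).2⟩
      · by_cases h2 : b.Aff w' e x
        · rw [hi, pdw_aff h2 (not_le.1 h1)] at hs
          exact absurd (Or.inr ⟨e, x, not_le.1 h1, rfl⟩) (hf₁ _ hs)
        · have h4 := pos_unaff hw' hS₂ hf₂ hpos h2
          refine ((isWw hw).code_iff _ _ _).2 ⟨⟨i, ?_⟩, unaff_tr hw h4⟩
          rw [hi, pdw_unaff h2, pdw_unaff h4]
      · exact absurd hs h3

theorem exists_fresh {F : Finset (List Bool)} {n : ℕ} (hF : F.card < 2 ^ n) {e : ℕ}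
    {x : List Bool} (hn : n < (stm e x).length) :
    ∃ z : List Bool, z.length = (stm e x).length ^ 2 ∧ (false :: cs z (stm e x)) ∉ F := by
  classical
  by_contra hcon
  push Not at hcon
  have h1 : (Finset.univ.image fun f : Fin ((stm e x).length ^ 2) → Bool =>
      (false :: cs (List.ofFn f) (stm e x))) ⊆ F := by
    intro r hr
    obtain ⟨f, -, rfl⟩ := Finset.mem_image.1 hr
    exact hcon _ (by simp)
  have h2 := Finset.card_le_card h1
  rw [Finset.card_image_of_injective, Finset.card_univ, Fintype.card_fun, Fintype.card_bool,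
    Fintype.card_fin] at h2
  · have h3 : n ≤ (stm e x).length ^ 2 := hn.le.trans (Nat.le_self_pow (by norm_num) _)
    have h4 : 2 ^ n ≤ 2 ^ (stm e x).length ^ 2 := Nat.pow_le_pow_right (by norm_num) h3
    omega
  · intro f g hfg
    exact List.ofFn_injective (cs_inj (List.cons.inj hfg).2).1

theorem union (hw : w.length = b.f.n + 1) (hw' : w'.length = b.f.n + 1)
    {S₁ S₂ : Set (List Bool)} (hS₁ : Closed (b.Qw w) (b.Ow w) S₁)
    (hS₂ : Closed (b.Qw w') (b.Ow w') S₂) (hf₁ : Free b.f w' S₁) (hf₂ : Free b.f w S₂)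
    {F : Finset (List Bool)} (hF₁ : ∀ r ∈ S₁, r ∈ F) (hF₂ : ∀ r ∈ S₂, r ∈ F)
    (hF : F.card < 2 ^ b.f.n) :
    ∃ pdu : Pads, Len pdu ∧
      (∀ e x i, (stm e x).length ≤ b.f.n → pdu e x i = b.pd e x i) ∧
      (∀ r ∈ S₁, world pdu (b.Dw {w, w'}) r = b.Ow w r) ∧
      ∀ r ∈ S₂, world pdu (b.Dw {w, w'}) r = b.Ow w' r := by
  classical
  have hfr : ∀ e x, ∃ z : List Bool, b.f.n < (stm e x).length →
      z.length = (stm e x).length ^ 2 ∧ (false :: cs z (stm e x)) ∉ F := by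
    intro e x
    by_cases h : b.f.n < (stm e x).length
    · obtain ⟨z, hz⟩ := exists_fresh hF h
      exact ⟨z, fun _ => hz⟩
    · exact ⟨[], fun h' => absurd h' h⟩
  choose fresh hfresh using hfr
  let pdu : Pads := fun e x i =>
    if (stm e x).length ≤ b.f.n then b.pd e x i
    else if b.Pos w S₁ e x then
      (if b.Pos w' S₂ e x then (if i = true then b.pdw w' e x true else b.pdw w e x false)
        else b.pdw w e x i)
    else if b.Pos w' S₂ e x then b.pdw w' e x i else fresh e x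
  have e0 : ∀ e x i, (stm e x).length ≤ b.f.n → pdu e x i = b.pd e x i :=
    fun e x i h => if_pos h
  have e11 : ∀ e x, b.f.n < (stm e x).length → b.Pos w S₁ e x → b.Pos w' S₂ e x →
      pdu e x true = b.pdw w' e x true ∧ pdu e x false = b.pdw w e x false := by
    intro e x h h1 h2
    simp only [pdu, not_le.2 h, if_false, h1, h2, if_true, Bool.false_eq_true, and_self]
  have e10 : ∀ e x i, b.f.n < (stm e x).length → b.Pos w S₁ e x → ¬ b.Pos w' S₂ e x →
      pdu e x i = b.pdw w e x i := by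
    intro e x i h h1 h2
    simp only [pdu, not_le.2 h, if_false, h1, h2, if_true]
  have e01 : ∀ e x i, b.f.n < (stm e x).length → ¬ b.Pos w S₁ e x → b.Pos w' S₂ e x →
      pdu e x i = b.pdw w' e x i := by
    intro e x i h h1 h2
    simp only [pdu, not_le.2 h, if_false, h1, h2, if_true]
  have e00 : ∀ e x i, b.f.n < (stm e x).length → ¬ b.Pos w S₁ e x → ¬ b.Pos w' S₂ e x →
      pdu e x i = fresh e x := by
    intro e x i h h1 h2
    simp only [pdu, not_le.2 h, if_false, h1, h2]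
  have hpu : Len pdu := by
    intro e x i
    by_cases h : (stm e x).length ≤ b.f.n
    · rw [e0 e x i h]; exact b.hp e x i
    · have h' := not_le.1 h
      by_cases h1 : b.Pos w S₁ e x <;> by_cases h2 : b.Pos w' S₂ e x
      · cases i
        · rw [(e11 e x h' h1 h2).2]; exact pdw_len hw e x _
        · rw [(e11 e x h' h1 h2).1]; exact pdw_len hw' e x _
      · rw [e10 e x i h' h1 h2]; exact pdw_len hw e x _
      · rw [e01 e x i h' h1 h2]; exact pdw_len hw' e x _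
      · rw [e00 e x i h' h1 h2]; exact (hfresh e x h').1
  have P1 : ∀ e x, b.f.n < (stm e x).length → b.Pos w S₁ e x →
      ∀ i, ∃ i', pdu e x i' = b.pdw w e x i := by
    intro e x h h1 i
    by_cases h2 : b.Pos w' S₂ e x
    · by_cases h3 : b.Aff w e x
      · exact ⟨false, by rw [(e11 e x h h1 h2).2, pdw_aff h3 h, pdw_aff h3 h]⟩
      · have h4 := pos_unaff hw hS₁ hf₁ h1 h3
        cases i
        · exact ⟨false, (e11 e x h h1 h2).2⟩
        · exact ⟨true, by rw [(e11 e x h h1 h2).1, pdw_unaff h3, pdw_unaff h4]⟩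
    · exact ⟨i, e10 e x i h h1 h2⟩
  have P2 : ∀ e x, b.f.n < (stm e x).length → b.Pos w' S₂ e x →
      ∀ i, ∃ i', pdu e x i' = b.pdw w' e x i := by
    intro e x h h2 i
    by_cases h1 : b.Pos w S₁ e x
    · by_cases h3 : b.Aff w' e x
      · exact ⟨true, by rw [(e11 e x h h1 h2).1, pdw_aff h3 h, pdw_aff h3 h]⟩
      · have h4 := pos_unaff hw' hS₂ hf₂ h2 h3
        cases i
        · exact ⟨false, by rw [(e11 e x h h1 h2).2, pdw_unaff h3, pdw_unaff h4]⟩
        · exact ⟨true, (e11 e x h h1 h2).1⟩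
    · exact ⟨i, e01 e x i h h1 h2⟩
  have P3 : ∀ e x, b.f.n < (stm e x).length → ∀ i',
      (b.Pos w S₁ e x ∧ ∃ i, pdu e x i' = b.pdw w e x i) ∨
      (b.Pos w' S₂ e x ∧ ∃ i, pdu e x i' = b.pdw w' e x i) ∨
      (false :: cs (pdu e x i') (stm e x)) ∉ F := by
    intro e x h i'
    by_cases h1 : b.Pos w S₁ e x <;> by_cases h2 : b.Pos w' S₂ e x
    · cases i'
      · exact Or.inl ⟨h1, false, (e11 e x h h1 h2).2⟩
      · exact Or.inr (Or.inl ⟨h2, true, (e11 e x h h1 h2).1⟩)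
    · exact Or.inl ⟨h1, i', e10 e x i' h h1 h2⟩
    · exact Or.inr (Or.inl ⟨h2, i', e01 e x i' h h1 h2⟩)
    · rw [e00 e x i' h h1 h2]
      exact Or.inr (Or.inr (hfresh e x h).2)
  have hW : ∀ u ∈ ({w, w'} : Set (List Bool)), u.length = b.f.n + 1 := by
    rintro u (rfl | rfl)
    · exact hw
    · exact hw'
  have hD : ∀ (u v : List Bool) (S : Set (List Bool)), Free b.f v S →
      ({w, w'} : Set (List Bool)) = {u, v} → ∀ s, (true :: s) ∈ S →
      b.Dw {w, w'} s = b.Dw {u} s := by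
    intro u v S hf huv s hs
    rw [huv]
    by_cases h1 : ∃ u' ∈ ({u} : Set (List Bool)), b.f.Blk u' (true :: s)
    · rw [Dw_pos h1]
      obtain ⟨u', rfl, hj⟩ := h1
      exact Dw_pos ⟨u', Or.inl rfl, hj⟩
    · rw [Dw_neg h1, Dw_neg]
      rintro ⟨u', rfl | rfl, h2⟩
      · exact h1 ⟨u', rfl, h2⟩
      · exact hf _ hs (Or.inl h2)
  refine ⟨pdu, hpu, e0, ?_, ?_⟩
  · exact half hw hw' hS₁ hS₂ hf₁ hf₂ hpu e0 P1
      (fun e x h i' => (P3 e x h i').imp_right (Or.imp_right fun h' h'' => h' (hF₁ _ h'')))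
      (hD w w' S₁ hf₁ rfl) fun s hs => Dw_short hW hs
  · exact half hw' hw hS₂ hS₁ hf₂ hf₁ hpu e0 P2
      (fun e x h i' => (or_left_comm.1 (P3 e x h i')).imp_right
        (Or.imp_right fun h' h'' => h' (hF₂ _ h'')))
      (hD w' w S₂ hf₂ (Set.pair_comm _ _)) fun s hs => Dw_short hW hs

end ESY.Few2.Base
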